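import Pool.Agent.helper80.T1.SpecO
set_option autoImplicit false

/-! Row OEJ of MP_07c750_an (project T1, block E3, plan of helper80): the error profile is bounded by `C/ε`. -/

open scoped MatrixGroups ContDiff Topology UpperHalfPlane ComplexConjugate
open UpperHalfPlane MeasureTheory Filter Set

namespace Pool.Agent.T1

open Pool.Agent.RS Pool.Agent.MS Pool.Agent.HV

theorem OEJ_bd (w : ℝ) (f : ℝ → ℝ) (hf : ContDiff ℝ ∞ f) (hs : ∀ x, f x ≠ 0 → |x| ≤ w) : ∃ C : ℝ, 1 ≤ C ∧ ∀ x, |f x| ≤ C ∧ |deriv f x| ≤ C := by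
  have hc : HasCompactSupport f := by
    refine HasCompactSupport.of_support_subset_isCompact (isCompact_Icc (a := -w) (b := w)) fun x hx => ?_
    exact abs_le.1 (hs x hx)
  obtain ⟨C1, h1⟩ := hf.continuous.bounded_above_of_compact_support hc
  obtain ⟨C2, h2⟩ := (hf.continuous_deriv (by simp)).bounded_above_of_compact_support hc.deriv
  refine ⟨max 1 (max C1 C2), le_max_left _ _, fun x => ⟨?_, ?_⟩⟩
  · exact (h1 x).trans ((le_max_left _ _).trans (le_max_right _ _))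
  · exact (h2 x).trans ((le_max_right _ _).trans (le_max_right _ _))

theorem OEJ_fd (b α : ℝ → ℝ) (hb : ContDiff ℝ ∞ b) (hα : ContDiff ℝ ∞ α) (z : ℍ) :
    px (pc b α) z = ((deriv b z.re * α (Real.log z.im) : ℝ) : ℂ) ∧ QU.dY (pc b α) z = ((b z.re * deriv α (Real.log z.im) : ℝ) : ℂ) := by
  have hz : z.im ≠ 0 := z.im_ne_zero
  have d1 : HasFDerivAt (fun w : ℂ => b w.re) (deriv b z.re • Complex.reCLM) (z : ℂ) :=
    ((hb.differentiable (by simp)) z.re).hasDerivAt.comp_hasFDerivAt (z : ℂ) Complex.reCLM.hasFDerivAt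
  have d2 : HasDerivAt (fun y => α (Real.log y)) (deriv α (Real.log z.im) * (z.im)⁻¹) z.im :=
    ((hα.differentiable (by simp)) (Real.log z.im)).hasDerivAt.comp z.im (Real.hasDerivAt_log hz)
  have d3 : HasFDerivAt (fun w : ℂ => α (Real.log w.im)) ((deriv α (Real.log z.im) * (z.im)⁻¹) • Complex.imCLM) (z : ℂ) :=
    d2.comp_hasFDerivAt (z : ℂ) Complex.imCLM.hasFDerivAt
  have d4 := Complex.ofRealCLM.hasFDerivAt.comp (z : ℂ) (d1.mul d3)
  have hev : QU.onC (pc b α) =ᶠ[𝓝 (z : ℂ)] (Complex.ofRealCLM ∘ fun w : ℂ => b w.re * α (Real.log w.im)) := by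
    filter_upwards [(isOpen_lt continuous_const Complex.continuous_im).mem_nhds (show (0 : ℝ) < (z : ℂ).im from z.im_pos)] with w hw
    show pc b α (ofComplex w) = ((b w.re * α (Real.log w.im) : ℝ) : ℂ)
    have h1 : ((ofComplex w : ℍ) : ℂ) = w := ofComplex_apply_of_im_pos hw ▸ rfl
    have h2 : (ofComplex w).re = w.re := by rw [← UpperHalfPlane.coe_re, h1]
    have h3 : (ofComplex w).im = w.im := by rw [← UpperHalfPlane.coe_im, h1]
    unfold pc
    rw [h2, h3]
  have d5 := (d4.congr_of_eventuallyEq hev).fderiv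
  constructor
  · unfold px
    rw [d5]
    simp
    ring
  · unfold QU.dY
    rw [d5]
    simp only [Complex.real_smul]
    simp
    have hz' : (z.im : ℂ) ≠ 0 := by exact_mod_cast hz
    field_simp

theorem OEJ_proof : OEJ_stmt := by
  intro χ β α hχ hβ hα
  obtain ⟨Cχ, hCχ1, hCχ⟩ := OEJ_bd 1 χ hχ.sm hχ.sp
  obtain ⟨Cβ, hCβ1, hCβ⟩ := OEJ_bd (1 / 4) β hβ.1 hβ.2
  obtain ⟨Cα, hCα1, hCα⟩ := OEJ_bd (1 / 4) α hα.1 hα.2
  refine ⟨12 * (Cβ * (1 + Cχ) * Cα), ?_, ?_⟩
  · have h1 : 1 ≤ Cβ * (1 + Cχ) := by nlinarith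
    nlinarith
  intro ε j z hε hε1
  have hbs : ContDiff ℝ ∞ (bj χ β ε j) := by
    have h1 : ContDiff ℝ ∞ fun x : ℝ => x / ε - (j : ℝ) := (contDiff_id.div_const ε).sub contDiff_const
    exact hβ.1.mul (hχ.sm.comp h1)
  have hb0 : ∀ x, |bj χ β ε j x| ≤ Cβ := by
    intro x
    unfold bj
    rw [abs_mul]
    have h1 := hχ.rg (x / ε - j)
    have h2 : |χ (x / ε - j)| ≤ 1 := by rw [abs_of_nonneg h1.1]; exact h1.2
    calc |β x| * |χ (x / ε - j)| ≤ Cβ * 1 := mul_le_mul (hCβ x).1 h2 (abs_nonneg _) (by linarith)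
      _ = Cβ := mul_one _
  have hbv : ∀ x, 1 / 4 < |x| → bj χ β ε j x = 0 := by
    intro x hx
    by_contra h
    refine absurd (hβ.2 x fun h0 => h ?_) (not_le.2 hx)
    unfold bj
    rw [h0, zero_mul]
  have hb1 : ∀ x, |deriv (bj χ β ε j) x| ≤ Cβ * (1 + Cχ) / ε := by
    intro x
    have e1 : HasDerivAt (fun x : ℝ => x / ε - (j : ℝ)) (1 / ε) x := ((hasDerivAt_id x).div_const ε).sub_const _
    have e2 := ((hχ.sm.differentiable (by simp)) (x / ε - (j : ℝ))).hasDerivAt.comp x e1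
    have e3 := ((hβ.1.differentiable (by simp)) x).hasDerivAt.mul e2
    have e4 : deriv (bj χ β ε j) x = deriv β x * χ (x / ε - j) + β x * (deriv χ (x / ε - j) * (1 / ε)) := e3.deriv
    rw [e4]
    have h1 := hχ.rg (x / ε - j)
    have h2 : |χ (x / ε - j)| ≤ 1 := by rw [abs_of_nonneg h1.1]; exact h1.2
    have h3 : |deriv β x * χ (x / ε - j)| ≤ Cβ := by
      rw [abs_mul]
      calc |deriv β x| * |χ (x / ε - j)| ≤ Cβ * 1 := mul_le_mul (hCβ x).2 h2 (abs_nonneg _) (by linarith)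
        _ = Cβ := mul_one _
    have h4 : |β x * (deriv χ (x / ε - j) * (1 / ε))| ≤ Cβ * (Cχ * (1 / ε)) := by
      rw [abs_mul, abs_mul, abs_of_pos (show 0 < 1 / ε by positivity)]
      exact mul_le_mul (hCβ x).1 (mul_le_mul_of_nonneg_right (hCχ _).2 (by positivity)) (by positivity) (by linarith)
    have h5 : Cβ ≤ Cβ * (1 / ε) := by
      have : 1 ≤ 1 / ε := (one_le_div hε).2 hε1
      nlinarith
    calc _ ≤ Cβ + Cβ * (Cχ * (1 / ε)) := (abs_add_le _ _).trans (add_le_add h3 h4)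
      _ ≤ Cβ * (1 / ε) + Cβ * (Cχ * (1 / ε)) := by linarith
      _ = Cβ * (1 + Cχ) / ε := by ring
  have hbd0 : ∀ x, 1 / 4 < |x| → deriv (bj χ β ε j) x = 0 := by
    intro x hx
    have h1 : bj χ β ε j =ᶠ[𝓝 x] fun _ => 0 := by
      filter_upwards [(isOpen_lt continuous_const continuous_abs).mem_nhds hx] with y hy
      exact hbv y hy
    rw [h1.deriv_eq, deriv_const]
  obtain ⟨hpx, hdY⟩ := OEJ_fd (bj χ β ε j) α hbs hα.1 z
  unfold ej
  have hK : 0 ≤ Cβ * (1 + Cχ) * Cα := by positivity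
  have hKε : Cβ * (1 + Cχ) * Cα ≤ Cβ * (1 + Cχ) * Cα / ε := by
    rw [le_div_iff₀ hε]
    nlinarith
  have hba : Cβ * Cα ≤ Cβ * (1 + Cχ) * Cα := by
    have : Cβ * 1 ≤ Cβ * (1 + Cχ) := mul_le_mul_of_nonneg_left (by linarith) (by linarith)
    nlinarith
  -- the product `x b α`
  have hxb : |z.re * bj χ β ε j z.re| ≤ Cβ := by
    by_cases hx : 1 / 4 < |z.re|
    · rw [hbv _ hx, mul_zero, abs_zero]
      linarith
    · rw [abs_mul]
      calc |z.re| * |bj χ β ε j z.re| ≤ 1 * Cβ := mul_le_mul (by linarith) (hb0 _) (abs_nonneg _) (by norm_num)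
        _ = Cβ := one_mul _
  have t1 : ‖xm (pc (bj χ β ε j) α) z‖ ≤ Cβ * Cα := by
    have : xm (pc (bj χ β ε j) α) z = ((z.re * bj χ β ε j z.re * α (Real.log z.im) : ℝ) : ℂ) := by
      unfold xm pc
      push_cast
      ring
    rw [this, Complex.norm_real, Real.norm_eq_abs, abs_mul]
    exact mul_le_mul hxb (hCα _).1 (abs_nonneg _) (by linarith)
  have t2 : ‖kW (pc (bj χ β ε j) α) z‖ ≤ 5 * (Cβ * (1 + Cχ) / ε * Cα) + 2 * (Cβ * Cα) := by
    unfold kW
    rw [hpx, hdY]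
    refine (norm_add_le _ _).trans (add_le_add ?_ ?_)
    · rw [← Complex.ofReal_mul, Complex.norm_real, Real.norm_eq_abs]
      by_cases hx : 1 / 4 < |z.re|
      · rw [hbd0 _ hx, zero_mul, mul_zero, abs_zero]
        positivity
      by_cases hy : 1 / 4 < |Real.log z.im|
      · have : α (Real.log z.im) = 0 := by
          by_contra h
          exact absurd (hα.2 _ h) (not_le.2 hy)
        rw [this, mul_zero, mul_zero, abs_zero]
        positivity
      have hx1 : z.re ^ 2 ≤ 1 := by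
        rw [← sq_abs]
        have := abs_nonneg z.re
        nlinarith
      have hy1 : z.im ≤ 2 := by
        have h1 : Real.log z.im ≤ 1 / 4 := (le_abs_self _).trans (not_lt.1 hy)
        have h2 : Real.log z.im ≤ Real.log 2 := by
          have := Real.log_two_gt_d9
          linarith
        exact (Real.log_le_log_iff z.im_pos (by norm_num)).1 h2
      have h3 : |z.re ^ 2 - z.im ^ 2| ≤ 5 := by
        have := z.im_pos
        rw [abs_le]
        constructor <;> nlinarith [sq_nonneg z.re, sq_nonneg z.im]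
      rw [abs_mul, abs_mul]
      exact mul_le_mul h3 (mul_le_mul (hb1 _) (hCα _).1 (abs_nonneg _) (by positivity)) (by positivity) (by norm_num)
    · rw [← Complex.ofReal_mul, Complex.norm_real, Real.norm_eq_abs]
      have e1 : 2 * z.re * (bj χ β ε j z.re * deriv α (Real.log z.im)) = 2 * ((z.re * bj χ β ε j z.re) * deriv α (Real.log z.im)) := by ring
      rw [e1, abs_mul, abs_mul, abs_of_pos (show (0 : ℝ) < 2 by norm_num)]
      exact mul_le_mul_of_nonneg_left (mul_le_mul hxb (hCα _).2 (abs_nonneg _) (by linarith)) (by norm_num)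
  have e5 : Cβ * (1 + Cχ) / ε * Cα = Cβ * (1 + Cχ) * Cα / ε := by ring
  rw [e5] at t2
  have e6 : 12 * (Cβ * (1 + Cχ) * Cα) / ε = 12 * (Cβ * (1 + Cχ) * Cα / ε) := by ring
  rw [e6]
  refine (norm_add_le _ _).trans ?_
  linarith

end Pool.Agent.T1
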